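import Mathlib

/-!
# Blow-ups of permutations that destroy approximate progressions

`Good S n f`: the permutation `f` of `{0, ..., n-1}` maps every triple `(a, b, c)`, not all equal, with
`|a + c - 2 b - κ n| ≤ 1` for some `κ ∈ S` to a triple with `|f a + f c - 2 f b - K n| ≥ 2` for all
`K ∈ S`. `S = {0}` is the interval, `S = univ` is the cyclic group.

`Win m n f`: the elements at distance at most `m` from the left end go to the window
`[0.28 n, 0.44 n]`, those at distance at most `m` from the right end to `[0.525 n, 0.685 n]`.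
-/

set_option autoImplicit false

namespace Pool.Agent.E9helper80.GP

open Finset

/-- see the header -/
def Good (S : Set ℤ) (n : ℕ) (f : Equiv.Perm (Fin n)) : Prop :=
  ∀ a b c : Fin n, ¬ (a = b ∧ b = c) → ∀ κ ∈ S, ∀ K ∈ S,
    |(a : ℤ) + c - 2 * b - κ * n| ≤ 1 → 2 ≤ |(f a : ℤ) + f c - 2 * f b - K * n|

/-- see the header -/
def Win (m : ℤ) (n : ℕ) (f : Equiv.Perm (Fin n)) : Prop :=
  (∀ x : Fin n, (x : ℤ) ≤ m → 56 * (n : ℤ) ≤ 200 * f x ∧ 200 * (f x : ℤ) ≤ 88 * n) ∧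
    ∀ y : Fin n, (n : ℤ) - 1 - m ≤ y → 105 * (n : ℤ) ≤ 200 * f y ∧ 200 * (f y : ℤ) ≤ 137 * n

/-- sizes for which there is a good interval permutation with windows -/
def T (m : ℤ) (n : ℕ) : Prop :=
  ∃ f : Equiv.Perm (Fin n), Good {0} n f ∧ Win m n f ∧ Win m n f.symm

/-- first position of the block `i` -/
def pos {M : ℕ} (d : Fin M → ℕ) (i : Fin M) : ℕ :=
  ∑ i' : Fin i.val, d (Fin.castLE i.2.le i')

theorem le_pos {M : ℕ} (d : Fin M → ℕ) (q : ℕ) (h : ∀ i, q ≤ d i) (i : Fin M) :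
    q * i.val ≤ pos d i := by
  unfold pos
  calc q * i.val = ∑ _i' : Fin i.val, q := by simp [mul_comm]
    _ ≤ _ := Finset.sum_le_sum fun i' _ => h _

theorem pos_le {M : ℕ} (d : Fin M → ℕ) (q : ℕ) (h : ∀ i, d i ≤ q + 1) (i : Fin M) :
    pos d i ≤ q * i.val + i.val := by
  unfold pos
  calc _ ≤ ∑ _i' : Fin i.val, (q + 1) := Finset.sum_le_sum fun i' _ => h _
    _ = q * i.val + i.val := by simp; ring

section blowup

variable {M : ℕ} (ρ : Equiv.Perm (Fin M)) (d : Fin M → ℕ) (f : ∀ i, Equiv.Perm (Fin (d i)))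

/-- elements of the blow-up: (codomain block, offset in the codomain) -/
abbrev W : Type := Σ j : Fin M, Fin (d (ρ.symm j))

/-- position in the domain -/
def dom : W ρ d ≃ Fin (∑ i, d i) :=
  (Equiv.sigmaCongrLeft (β := fun i => Fin (d i)) ρ.symm).trans
    ((Equiv.sigmaCongrRight fun i => (f i).symm).trans finSigmaFinEquiv)

theorem sum_eq : ∑ j, d (ρ.symm j) = ∑ i, d i := Equiv.sum_comp ρ.symm d

/-- position in the codomain -/
def cod : W ρ d ≃ Fin (∑ i, d i) :=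
  (finSigmaFinEquiv (n := fun j => d (ρ.symm j))).trans (finCongr (sum_eq ρ d))

theorem dom_val (j : Fin M) (y : Fin (d (ρ.symm j))) :
    ((dom ρ d f ⟨j, y⟩ : Fin _) : ℕ) = pos d (ρ.symm j) + ((f (ρ.symm j)).symm y).val := by
  unfold dom
  rw [Equiv.trans_apply, Equiv.trans_apply, finSigmaFinEquiv_apply]
  rfl

theorem cod_val (j : Fin M) (y : Fin (d (ρ.symm j))) :
    ((cod ρ d ⟨j, y⟩ : Fin _) : ℕ) = pos (fun j => d (ρ.symm j)) j + y.val := by
  unfold cod
  rw [Equiv.trans_apply]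
  rw [finCongr_apply, Fin.val_cast, finSigmaFinEquiv_apply]
  rfl

/-- the blow-up -/
def blow : Equiv.Perm (Fin (∑ i, d i)) := (dom ρ d f).symm.trans (cod ρ d)

end blowup

set_option linter.unusedVariables false in
/-- the arithmetic of the corners -/
theorem arith {q M m : ℤ} (hm : 3 * M ≤ m) (hq : m < q) (hM : 1 ≤ M)
    {n r κ i j k p1 p2 p3 x y z : ℤ}
    (hn : n = q * M + r) (hr0 : 0 ≤ r) (hr : r ≤ M)
    (hp1 : q * i ≤ p1) (hp1' : p1 ≤ q * i + i) (hp2 : q * j ≤ p2) (hp2' : p2 ≤ q * j + j)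
    (hp3 : q * k ≤ p3) (hp3' : p3 ≤ q * k + k)
    (hi0 : 0 ≤ i) (hi : i < M) (hj0 : 0 ≤ j) (hj : j < M) (hk0 : 0 ≤ k) (hk : k < M)
    (hx0 : 0 ≤ x) (hx : x ≤ q) (hy0 : 0 ≤ y) (hy : y ≤ q) (hz0 : 0 ≤ z) (hz : z ≤ q)
    (ha : p1 + x < n) (hb : p2 + y < n) (hc : p3 + z < n)
    (h : |p1 + x + (p3 + z) - 2 * (p2 + y) - κ * n| ≤ 1) :
    |q * (i + k - 2 * j - κ * M) + (x + z - 2 * y)| ≤ m ∧ |i + k - 2 * j - κ * M| ≤ 2 := by
  have hn0 : 0 < n := by nlinarith
  have hp10 : 0 ≤ p1 := le_trans (by nlinarith) hp1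
  have hp20 : 0 ≤ p2 := le_trans (by nlinarith) hp2
  have hp30 : 0 ≤ p3 := le_trans (by nlinarith) hp3
  rw [abs_le] at h
  have hκ1 : κ < 2 := by
    by_contra hcon
    push Not at hcon
    nlinarith
  have hκ2 : -2 < κ := by
    by_contra hcon
    push Not at hcon
    nlinarith
  have hκr : -M ≤ κ * r ∧ κ * r ≤ M := by
    have h3 : κ = -1 ∨ κ = 0 ∨ κ = 1 := by omega
    rcases h3 with rfl | rfl | rfl <;> constructor <;> linarith
  obtain ⟨t1, ht1⟩ : ∃ t1, t1 = p1 - q * i := ⟨_, rfl⟩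
  obtain ⟨t2, ht2⟩ : ∃ t2, t2 = p2 - q * j := ⟨_, rfl⟩
  obtain ⟨t3, ht3⟩ : ∃ t3, t3 = p3 - q * k := ⟨_, rfl⟩
  have e : p1 + x + (p3 + z) - 2 * (p2 + y) - κ * n =
      (q * (i + k - 2 * j - κ * M) + (x + z - 2 * y)) + (t1 + t3 - 2 * t2) - κ * r := by
    rw [hn, ht1, ht2, ht3]; ring
  rw [e] at h
  have hb1 : |q * (i + k - 2 * j - κ * M) + (x + z - 2 * y)| ≤ m := by
    rw [abs_le]
    constructor <;> linarith [h.1, h.2, hκr.1, hκr.2]
  refine ⟨hb1, ?_⟩
  obtain ⟨e', he'⟩ : ∃ e', e' = i + k - 2 * j - κ * M := ⟨_, rfl⟩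
  rw [← he'] at hb1 ⊢
  rw [abs_le] at hb1 ⊢
  constructor
  · by_contra hcon
    push Not at hcon
    have : q * e' ≤ q * (-3) := mul_le_mul_of_nonneg_left (by omega) (by linarith)
    linarith [hb1.1]
  · by_contra hcon
    push Not at hcon
    have : q * 3 ≤ q * e' := mul_le_mul_of_nonneg_left (by omega) (by linarith)
    linarith [hb1.2]

theorem mod_far {q m E s : ℤ} (hq : 0 < q) (h : |q * E + s| ≤ m) (h1 : m < s) (h2 : s < q - m) :
    False := by
  rw [abs_le] at h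
  rcases lt_trichotomy E 0 with hE | hE | hE
  · have : q * E ≤ q * (-1) := mul_le_mul_of_nonneg_left (by omega) hq.le
    linarith [h.1]
  · subst hE
    linarith [h.2]
  · have : q * 1 ≤ q * E := mul_le_mul_of_nonneg_left (by omega) hq.le
    linarith [h.2]

/-- corners -/
theorem corner {q M : ℕ} {m : ℤ} {d : Fin M → ℕ} (hd : ∀ i, q ≤ d i ∧ d i ≤ q + 1)
    (hm : 0 ≤ m) (hq : 100 * m + 137 < 17 * q)
    (g : ∀ i, Equiv.Perm (Fin (d i))) (hw : ∀ i, Win m (d i) (g i))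
    {i1 i2 i3 : Fin M} {x1 : Fin (d i1)} {x2 : Fin (d i2)} {x3 : Fin (d i3)} {e E : ℤ}
    (h : |(q : ℤ) * e + ((x1 : ℤ) + x3 - 2 * x2)| ≤ m)
    (h' : |(q : ℤ) * E + ((g i1 x1 : ℤ) + g i3 x3 - 2 * g i2 x2)| ≤ m)
    (he : |e| = 2) : False := by
  have l1 := x1.2
  have l2 := x2.2
  have l3 := x3.2
  obtain ⟨d1, d1'⟩ := hd i1
  obtain ⟨d2, d2'⟩ := hd i2
  obtain ⟨d3, d3'⟩ := hd i3
  have hqp : (0 : ℤ) < q := by omega
  rcases (abs_eq (by norm_num : (0 : ℤ) ≤ 2)).1 he with rfl | rfl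
  · -- x1, x3 small, x2 large
    rw [abs_le] at h
    have a1 := (hw i1).1 x1 (by omega)
    have a3 := (hw i3).1 x3 (by omega)
    have a2 := (hw i2).2 x2 (by omega)
    refine mod_far (m := m) (E := -E) (s := 2 * (g i2 x2 : ℤ) - g i1 x1 - g i3 x3) hqp ?_ ?_ ?_
    · rw [← abs_neg]
      have e1 : -((q : ℤ) * -E + (2 * (g i2 x2 : ℤ) - g i1 x1 - g i3 x3)) =
        (q : ℤ) * E + ((g i1 x1 : ℤ) + g i3 x3 - 2 * g i2 x2) := by ring
      rw [e1]
      exact h'
    · omega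
    · omega
  · rw [abs_le] at h
    have a1 := (hw i1).2 x1 (by omega)
    have a3 := (hw i3).2 x3 (by omega)
    have a2 := (hw i2).1 x2 (by omega)
    refine mod_far (m := m) (E := E) (s := (g i1 x1 : ℤ) + g i3 x3 - 2 * g i2 x2) hqp h' ?_ ?_
    · omega
    · omega

theorem blow_good {S : Set ℤ} {M q : ℕ} (hM : 3 ≤ M) (ρ : Equiv.Perm (Fin M)) (hρ : Good S M ρ)
    (d : Fin M → ℕ) (hd : ∀ i, q ≤ d i ∧ d i ≤ q + 1) (f : ∀ i, Equiv.Perm (Fin (d i)))
    (m : ℤ) (hm : 3 * (M : ℤ) ≤ m) (hq : 100 * m + 137 < 17 * q)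
    (hf : ∀ i, Good {0} (d i) (f i)) (hw : ∀ i, Win m (d i) (f i))
    (hw' : ∀ i, Win m (d i) (f i).symm) : Good S (∑ i, d i) (blow ρ d f) := by
  intro a b c hne κ hκ K hK h1
  by_contra h2
  push Not at h2
  obtain ⟨w1, rfl⟩ := (dom ρ d f).surjective a
  obtain ⟨w2, rfl⟩ := (dom ρ d f).surjective b
  obtain ⟨w3, rfl⟩ := (dom ρ d f).surjective c
  have hb : ∀ w, blow ρ d f (dom ρ d f w) = cod ρ d w := by
    intro w
    unfold blow
    simp
  rw [hb, hb, hb] at h2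
  have hne' : ¬ (w1 = w2 ∧ w2 = w3) := fun h => hne ⟨by rw [h.1], by rw [h.2]⟩
  obtain ⟨j1, y1⟩ := w1
  obtain ⟨j2, y2⟩ := w2
  obtain ⟨j3, y3⟩ := w3
  have la := (dom ρ d f ⟨j1, y1⟩).2
  have lb := (dom ρ d f ⟨j2, y2⟩).2
  have lc := (dom ρ d f ⟨j3, y3⟩).2
  have la' := (cod ρ d ⟨j1, y1⟩).2
  have lb' := (cod ρ d ⟨j2, y2⟩).2
  have lc' := (cod ρ d ⟨j3, y3⟩).2
  rw [dom_val] at la lb lc
  rw [cod_val] at la' lb' lc'
  rw [dom_val, dom_val, dom_val] at h1
  rw [cod_val, cod_val, cod_val] at h2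
  -- the total length
  have hn1 : M * q ≤ ∑ i, d i := by
    calc M * q = ∑ _i : Fin M, q := by simp
      _ ≤ _ := Finset.sum_le_sum fun i _ => (hd i).1
  have hn2 : ∑ i, d i ≤ M * q + M := by
    calc _ ≤ ∑ _i : Fin M, (q + 1) := Finset.sum_le_sum fun i _ => (hd i).2
      _ = _ := by simp; ring
  obtain ⟨n, hn⟩ : ∃ n, n = ∑ i, d i := ⟨_, rfl⟩
  rw [← hn] at la lb lc la' lb' lc' h1 h2 hn1 hn2
  have p1 := le_pos d q (fun i => (hd i).1) (ρ.symm j1)
  have p2 := le_pos d q (fun i => (hd i).1) (ρ.symm j2)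
  have p3 := le_pos d q (fun i => (hd i).1) (ρ.symm j3)
  have p1' := pos_le d q (fun i => (hd i).2) (ρ.symm j1)
  have p2' := pos_le d q (fun i => (hd i).2) (ρ.symm j2)
  have p3' := pos_le d q (fun i => (hd i).2) (ρ.symm j3)
  have P1 := le_pos (fun j => d (ρ.symm j)) q (fun i => (hd _).1) j1
  have P2 := le_pos (fun j => d (ρ.symm j)) q (fun i => (hd _).1) j2
  have P3 := le_pos (fun j => d (ρ.symm j)) q (fun i => (hd _).1) j3
  have P1' := pos_le (fun j => d (ρ.symm j)) q (fun i => (hd _).2) j1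
  have P2' := pos_le (fun j => d (ρ.symm j)) q (fun i => (hd _).2) j2
  have P3' := pos_le (fun j => d (ρ.symm j)) q (fun i => (hd _).2) j3
  have k1 := ((f (ρ.symm j1)).symm y1).2
  have k2 := ((f (ρ.symm j2)).symm y2).2
  have k3 := ((f (ρ.symm j3)).symm y3).2
  have k1' := y1.2
  have k2' := y2.2
  have k3' := y3.2
  have d1 := hd (ρ.symm j1)
  have d2 := hd (ρ.symm j2)
  have d3 := hd (ρ.symm j3)
  have i1 := (ρ.symm j1).2
  have i2 := (ρ.symm j2).2
  have i3 := (ρ.symm j3).2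
  have A := arith (q := q) (M := M) (m := m) (n := n) (r := (n : ℤ) - q * M) (κ := κ)
    (i := ((ρ.symm j1 : Fin M) : ℕ)) (j := ((ρ.symm j2 : Fin M) : ℕ))
    (k := ((ρ.symm j3 : Fin M) : ℕ)) (p1 := pos d (ρ.symm j1)) (p2 := pos d (ρ.symm j2))
    (p3 := pos d (ρ.symm j3)) (x := ((f (ρ.symm j1)).symm y1 : Fin _))
    (y := ((f (ρ.symm j2)).symm y2 : Fin _)) (z := ((f (ρ.symm j3)).symm y3 : Fin _))
    hm (by omega) (by omega) (by ring) (by zify at hn1; linarith) (by zify at hn2; linarith)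
    (by exact_mod_cast p1) (by exact_mod_cast p1') (by exact_mod_cast p2) (by exact_mod_cast p2')
    (by exact_mod_cast p3) (by exact_mod_cast p3') (by omega) (by omega) (by omega) (by omega)
    (by omega) (by omega) (by omega) (by omega) (by omega) (by omega) (by omega) (by omega)
    (by omega) (by omega) (by omega) (by push_cast at h1 ⊢; exact h1)
  have B := arith (q := q) (M := M) (m := m) (n := n) (r := (n : ℤ) - q * M) (κ := K)
    (i := (j1 : ℕ)) (j := (j2 : ℕ)) (k := (j3 : ℕ))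
    (p1 := pos (fun j => d (ρ.symm j)) j1) (p2 := pos (fun j => d (ρ.symm j)) j2)
    (p3 := pos (fun j => d (ρ.symm j)) j3) (x := (y1 : ℕ)) (y := (y2 : ℕ)) (z := (y3 : ℕ))
    hm (by omega) (by omega) (by ring) (by zify at hn1; linarith) (by zify at hn2; linarith)
    (by exact_mod_cast P1) (by exact_mod_cast P1') (by exact_mod_cast P2) (by exact_mod_cast P2')
    (by exact_mod_cast P3) (by exact_mod_cast P3') (by omega) (by omega) (by omega) (by omega)
    (by omega) (by omega) (by omega) (by omega) (by omega) (by omega) (by omega) (by omega)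
    (by omega) (by omega) (by omega) (by push_cast at h2 ⊢; omega)
  by_cases hjj : j1 = j2 ∧ j2 = j3
  · -- the same block
    obtain ⟨rfl, rfl⟩ := hjj
    have hκ0 : κ = 0 := by
      have h3 := A.2
      rw [abs_le] at h3
      by_contra hcon
      rcases lt_or_gt_of_ne hcon with h4 | h4
      · have : (M : ℤ) * κ ≤ M * (-1) := mul_le_mul_of_nonneg_left (by omega) (by positivity)
        have : κ * (M : ℤ) = M * κ := mul_comm _ _
        omega
      · have : (M : ℤ) * 1 ≤ M * κ := mul_le_mul_of_nonneg_left (by omega) (by positivity)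
        have : κ * (M : ℤ) = M * κ := mul_comm _ _
        omega
    have hK0 : K = 0 := by
      have h3 := B.2
      rw [abs_le] at h3
      by_contra hcon
      rcases lt_or_gt_of_ne hcon with h4 | h4
      · have : (M : ℤ) * K ≤ M * (-1) := mul_le_mul_of_nonneg_left (by omega) (by positivity)
        have : K * (M : ℤ) = M * K := mul_comm _ _
        omega
      · have : (M : ℤ) * 1 ≤ M * K := mul_le_mul_of_nonneg_left (by omega) (by positivity)
        have : K * (M : ℤ) = M * K := mul_comm _ _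
        omega
    subst hκ0 hK0
    have h5 := hf (ρ.symm j1) ((f (ρ.symm j1)).symm y1) ((f (ρ.symm j1)).symm y2)
      ((f (ρ.symm j1)).symm y3) (fun h => hne' ⟨by
        have := (f (ρ.symm j1)).symm.injective h.1
        rw [this], by
        have := (f (ρ.symm j1)).symm.injective h.2
        rw [this]⟩) 0 rfl 0 rfl (by
        push_cast at h1 ⊢
        convert h1 using 2
        ring)
    rw [Equiv.apply_symm_apply, Equiv.apply_symm_apply, Equiv.apply_symm_apply] at h5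
    have h6 : ((pos (fun j => d (ρ.symm j)) j1 + (y1 : ℕ) : ℕ) : ℤ) +
        ((pos (fun j => d (ρ.symm j)) j1 + (y3 : ℕ) : ℕ) : ℤ) -
        2 * ((pos (fun j => d (ρ.symm j)) j1 + (y2 : ℕ) : ℕ) : ℤ) - 0 * n =
        (y1 : ℤ) + y3 - 2 * y2 - 0 * (d (ρ.symm j1) : ℕ) := by
      push_cast
      ring
    rw [h6] at h2
    omega
  · have hii : ¬ (ρ.symm j1 = ρ.symm j2 ∧ ρ.symm j2 = ρ.symm j3) := fun h =>
      hjj ⟨ρ.symm.injective h.1, ρ.symm.injective h.2⟩
    have hg := hρ _ _ _ hii κ hκ K hK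
    rw [Equiv.apply_symm_apply, Equiv.apply_symm_apply, Equiv.apply_symm_apply] at hg
    by_cases he : |((ρ.symm j1 : Fin M) : ℤ) + (ρ.symm j3 : Fin M) - 2 * (ρ.symm j2 : Fin M) -
        κ * M| ≤ 1
    · have hE := hg he
      have hE2 : |(j1 : ℤ) + j3 - 2 * j2 - K * M| = 2 := le_antisymm B.2 hE
      refine corner (d := fun j => d (ρ.symm j)) (fun i => hd _) (by omega) hq
        (fun j => (f (ρ.symm j)).symm) (fun j => hw' _) (x1 := y1) (x2 := y2) (x3 := y3)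
        B.1 A.1 hE2
    · have he2 : |((ρ.symm j1 : Fin M) : ℤ) + (ρ.symm j3 : Fin M) - 2 * (ρ.symm j2 : Fin M) -
        κ * M| = 2 := le_antisymm A.2 (by omega)
      refine corner hd (by omega) hq f hw (x1 := (f (ρ.symm j1)).symm y1)
        (x2 := (f (ρ.symm j2)).symm y2) (x3 := (f (ρ.symm j3)).symm y3) A.1 (E :=
          (j1 : ℤ) + j3 - 2 * j2 - K * M) ?_ he2
      rw [Equiv.apply_symm_apply, Equiv.apply_symm_apply, Equiv.apply_symm_apply]
      exact B.1

end Pool.Agent.E9helper80.GP
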