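import Pool.Agent.E9helper80.GP.Step

/-!
# Good permutations of one cyclic group

Permutations of `ℤ/16`, `ℤ/17`, `ℤ/19`, `ℤ/21` which avoid three types each, and the Chinese remainder
theorem.
-/

set_option autoImplicit false

namespace Pool.Agent.E9helper80.GP

/-- no triple, not all equal, with `a + c - 2 b = e` is mapped to one with
`σ a + σ c - 2 σ b = E`, for `(e, E) ∈ S` -/
def GT (S : List (ℤ × ℤ)) (m : ℕ) (σ : Equiv.Perm (ZMod m)) : Prop :=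
  ∀ a b c : ZMod m, ¬ (a = b ∧ b = c) → ∀ p ∈ S,
    a + c - 2 * b = ((p.1 : ℤ) : ZMod m) → σ a + σ c - 2 * σ b ≠ ((p.2 : ℤ) : ZMod m)

theorem small_zero {m : ℕ} (hm : 2 ≤ m) {e : ℤ} (h1 : |e| ≤ 1) (h2 : ((e : ℤ) : ZMod m) = 0) :
    e = 0 := by
  rw [ZMod.intCast_zmod_eq_zero_iff_dvd] at h2
  by_contra hcon
  have h3 := Int.le_of_dvd (abs_pos.2 hcon) ((dvd_abs _ _).2 h2)
  omega

theorem GT.trivial {S : List (ℤ × ℤ)} {m : ℕ} {σ : Equiv.Perm (ZMod m)} (h : GT S m σ)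
    (hm : 2 ≤ m) {a b c : ZMod m} {p : ℤ × ℤ} (hp : p ∈ S) (h1 : |p.1| ≤ 1) (h2 : |p.2| ≤ 1)
    (h3 : a + c - 2 * b = ((p.1 : ℤ) : ZMod m))
    (h4 : σ a + σ c - 2 * σ b = ((p.2 : ℤ) : ZMod m)) :
    (a = b ∧ b = c) ∧ p = (0, 0) := by
  have h5 : a = b ∧ b = c := by
    by_contra hcon
    exact h a b c hcon p hp h3 h4
  refine ⟨h5, ?_⟩
  obtain ⟨rfl, rfl⟩ := h5
  have e1 : a + a - 2 * a = 0 := by ring
  have e2 : σ a + σ a - 2 * σ a = 0 := by ring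
  rw [e1] at h3
  rw [e2] at h4
  exact Prod.ext (small_zero hm h1 h3.symm) (small_zero hm h2 h4.symm)

/-- Chinese remainder theorem -/
theorem crt {S₁ S₂ : List (ℤ × ℤ)} {m₁ m₂ : ℕ} (h₁ : 2 ≤ m₁) (h₂ : 2 ≤ m₂)
    (hc : Nat.Coprime m₁ m₂) {σ₁ : Equiv.Perm (ZMod m₁)} {σ₂ : Equiv.Perm (ZMod m₂)}
    (g₁ : GT S₁ m₁ σ₁) (g₂ : GT S₂ m₂ σ₂) (z₁ : ((0, 0) : ℤ × ℤ) ∈ S₁)
    (z₂ : ((0, 0) : ℤ × ℤ) ∈ S₂) (b₁ : ∀ p ∈ S₁, |p.1| ≤ 1 ∧ |p.2| ≤ 1)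
    (b₂ : ∀ p ∈ S₂, |p.1| ≤ 1 ∧ |p.2| ≤ 1) :
    ∃ σ : Equiv.Perm (ZMod (m₁ * m₂)), GT (S₁ ++ S₂) (m₁ * m₂) σ := by
  obtain ⟨φ, hφ⟩ : ∃ φ : ZMod (m₁ * m₂) ≃+* ZMod m₁ × ZMod m₂, True :=
    ⟨ZMod.chineseRemainder hc, trivial⟩
  refine ⟨(φ.toEquiv.trans (σ₁.prodCongr σ₂)).trans φ.symm.toEquiv, ?_⟩
  intro a b c hne p hp h1 h2
  obtain ⟨⟨a1, a2⟩, rfl⟩ := φ.symm.surjective a
  obtain ⟨⟨b1, b2⟩, rfl⟩ := φ.symm.surjective b
  obtain ⟨⟨c1, c2⟩, rfl⟩ := φ.symm.surjective c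
  have h3 := congrArg φ h1
  have h4 := congrArg φ h2
  have e0 : ∀ x : ZMod m₁ × ZMod m₂,
      ((φ.toEquiv.trans (σ₁.prodCongr σ₂)).trans φ.symm.toEquiv) (φ.symm x) =
        φ.symm (σ₁ x.1, σ₂ x.2) := by
    intro x
    simp [Prod.map]
  rw [e0, e0, e0] at h4
  simp only [map_sub, map_add, map_mul, RingEquiv.apply_symm_apply, map_ofNat, map_intCast] at h3 h4
  have h31 := congrArg Prod.fst h3
  have h32 := congrArg Prod.snd h3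
  have h41 := congrArg Prod.fst h4
  have h42 := congrArg Prod.snd h4
  simp at h31 h32 h41 h42
  have fin : ∀ _ : (a1 = b1 ∧ b1 = c1) ∧ (a2 = b2 ∧ b2 = c2), False := by
    rintro ⟨⟨rfl, rfl⟩, rfl, rfl⟩
    exact hne ⟨rfl, rfl⟩
  rcases List.mem_append.1 hp with hp | hp
  · have t1 := g₁.trivial h₁ hp (b₁ p hp).1 (b₁ p hp).2 h31 h41
    obtain ⟨t1, rfl⟩ := t1
    have t2 := g₂.trivial h₂ z₂ (by simp) (by simp) h32 h42
    exact fin ⟨t1, t2.1⟩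
  · have t1 := g₂.trivial h₂ hp (b₂ p hp).1 (b₂ p hp).2 h32 h42
    obtain ⟨t1, rfl⟩ := t1
    have t2 := g₁.trivial h₁ z₁ (by simp) (by simp) h31 h41
    exact fin ⟨t2.1, t1⟩

/-- digit `x` of `N` in base `32` -/
def dg (N x : ℕ) : ℕ := (N >>> (5 * x)) % 32

/-- a permutation of `{0, ..., n}` -/
def mkF (n : ℕ) (N N' : ℕ) (h : ∀ x : Fin (n + 1), dg N x < n + 1 ∧ dg N' x < n + 1 ∧
    dg N' (dg N x) = x ∧ dg N (dg N' x) = x) : Equiv.Perm (Fin (n + 1)) where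
  toFun x := ⟨dg N x, (h x).1⟩
  invFun x := ⟨dg N' x, (h x).2.1⟩
  left_inv x := Fin.ext (h x).2.2.1
  right_inv x := Fin.ext (h x).2.2.2

/-- the same as a permutation of `ℤ/(n+1)` -/
def mkZ (n : ℕ) (N N' : ℕ) (h : ∀ x : Fin (n + 1), dg N x < n + 1 ∧ dg N' x < n + 1 ∧
    dg N' (dg N x) = x ∧ dg N (dg N' x) = x) : Equiv.Perm (ZMod (n + 1)) :=
  mkF n N N' h

theorem q16 : ∀ x : Fin 16, dg 0x709605258d20ce13150f x < 16 ∧ dg 0x3d096ad4128c473388c x < 16 ∧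
    dg 0x3d096ad4128c473388c (dg 0x709605258d20ce13150f x) = x ∧
    dg 0x709605258d20ce13150f (dg 0x3d096ad4128c473388c x) = x := by
  decide +kernel

theorem gt16 : GT [(0, 0), (0, -1), (0, 1)] 16 (mkZ 15 _ _ q16) := by
  unfold GT
  decide +kernel

theorem q17 : ∀ x : Fin 17, dg 0x848da72320a72c2513c06 x < 17 ∧ dg 0x911daa321f06008b70ca1 x < 17 ∧
    dg 0x911daa321f06008b70ca1 (dg 0x848da72320a72c2513c06 x) = x ∧
    dg 0x848da72320a72c2513c06 (dg 0x911daa321f06008b70ca1 x) = x := by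
  decide +kernel

theorem gt17 : GT [(0, 0), (-1, -1), (1, 1)] 17 (mkZ 16 _ _ q17) := by
  unfold GT
  decide +kernel

theorem q19 : ∀ x : Fin 19, dg 0x16277200a7b492124235b0d0 x < 19 ∧ dg 0x22205bd421b0ce8064921cad x < 19 ∧
    dg 0x22205bd421b0ce8064921cad (dg 0x16277200a7b492124235b0d0 x) = x ∧
    dg 0x16277200a7b492124235b0d0 (dg 0x22205bd421b0ce8064921cad x) = x := by
  decide +kernel

theorem gt19 : GT [(0, 0), (-1, 0), (1, 0)] 19 (mkZ 18 _ _ q19) := by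
  unfold GT
  decide +kernel

theorem q21 : ∀ x : Fin 21, dg 0xa2bc04641c649e330a1b414963 x < 21 ∧ dg 0x44092e934af0d1665327000cf1 x < 21 ∧
    dg 0x44092e934af0d1665327000cf1 (dg 0xa2bc04641c649e330a1b414963 x) = x ∧
    dg 0xa2bc04641c649e330a1b414963 (dg 0x44092e934af0d1665327000cf1 x) = x := by
  decide +kernel

theorem gt21 : GT [(0, 0), (-1, 1), (1, -1)] 21 (mkZ 20 _ _ q21) := by
  unfold GT
  decide +kernel


theorem cyc : ∃ M : ℕ, 3 ≤ M ∧ ∃ σ : Equiv.Perm (ZMod M),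
    ∀ e E : ℤ, |e| ≤ 1 → |E| ≤ 1 → ∀ a b c : ZMod M, ¬ (a = b ∧ b = c) →
      a + c - 2 * b = ((e : ℤ) : ZMod M) → σ a + σ c - 2 * σ b ≠ ((E : ℤ) : ZMod M) := by
  obtain ⟨s1, h1⟩ := crt (by norm_num) (by norm_num) (by norm_num) gt16 gt17 (by simp) (by simp)
    (by decide) (by decide)
  obtain ⟨s2, h2⟩ := crt (by norm_num) (by norm_num) (by norm_num) h1 gt19 (by simp) (by simp)
    (by decide) (by decide)
  obtain ⟨s3, h3⟩ := crt (by norm_num) (by norm_num) (by norm_num) h2 gt21 (by simp) (by simp)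
    (by decide) (by decide)
  refine ⟨16 * 17 * 19 * 21, by norm_num, s3, ?_⟩
  intro e E he hE a b c hne h4
  refine h3 a b c hne (e, E) ?_ h4
  have e1 : e = -1 ∨ e = 0 ∨ e = 1 := by rw [abs_le] at he; omega
  have e2 : E = -1 ∨ E = 0 ∨ E = 1 := by rw [abs_le] at hE; omega
  rcases e1 with rfl | rfl | rfl <;> rcases e2 with rfl | rfl | rfl <;> simp

end Pool.Agent.E9helper80.GP
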