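import Pool.Agent.E9helper80.GP.Step

/-!
# The four explicit permutations of intervals

A permutation of `{0, ..., n-1}` is given by the natural number whose digits in base `512` are its
values.
-/

set_option autoImplicit false

namespace Pool.Agent.E9helper80.GP

/-- digit `x` of `N` in base `512` -/
def dig (N x : ℕ) : ℕ := (N >>> (9 * x)) % 512

/-- `p i` for all `i < n` -/
def allB : ℕ → (ℕ → Bool) → Bool
  | 0, _ => true
  | n + 1, p => p n && allB n p

theorem allB_iff (n : ℕ) (p : ℕ → Bool) : allB n p = true ↔ ∀ i < n, p i = true := by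
  induction n with
  | zero => simp [allB]
  | succ n ih =>
    rw [allB, Bool.and_eq_true, ih]
    constructor
    · rintro ⟨h1, h2⟩ i hi
      rcases Nat.lt_succ_iff_lt_or_eq.1 hi with h | rfl
      · exact h2 i h
      · exact h1
    · intro h
      exact ⟨h n (Nat.lt_succ_self n), fun i hi => h i (Nat.lt_succ_of_lt hi)⟩

/-- `N` and `N'` are inverse permutations of `{0, ..., n-1}` -/
def permB (n N N' : ℕ) : Bool :=
  allB n fun x => Nat.blt (dig N x) n && (Nat.blt (dig N' x) n &&
    (Nat.beq (dig N' (dig N x)) x && Nat.beq (dig N (dig N' x)) x))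

/-- the distance of `s` and `t` is at least `2` -/
def farB (s t : ℕ) : Bool := Nat.ble (s + 2) t || Nat.ble (t + 2) s

/-- `N` is good on the interval -/
def goodB (n N : ℕ) : Bool :=
  allB n fun c => allB c fun a =>
    farB (dig N a + dig N c) (2 * dig N ((a + c) / 2)) &&
      farB (dig N a + dig N c) (2 * dig N ((a + c + 1) / 2))

/-- the windows, with `m = 39` -/
def winB (n N : ℕ) : Bool :=
  allB 40 fun x => (Nat.ble (56 * n) (200 * dig N x) && Nat.ble (200 * dig N x) (88 * n)) &&
    (Nat.ble (105 * n) (200 * dig N (n - 1 - x)) && Nat.ble (200 * dig N (n - 1 - x)) (137 * n))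

/-- the permutation -/
def mk (n N N' : ℕ) (h : permB n N N' = true) : Equiv.Perm (Fin n) where
  toFun x := ⟨dig N x, by
    have := (allB_iff _ _).1 h x x.2
    simp only [Bool.and_eq_true, Nat.blt_eq] at this
    exact this.1⟩
  invFun x := ⟨dig N' x, by
    have := (allB_iff _ _).1 h x x.2
    simp only [Bool.and_eq_true, Nat.blt_eq] at this
    exact this.2.1⟩
  left_inv x := by
    have := (allB_iff _ _).1 h x x.2
    simp only [Bool.and_eq_true, Nat.beq_eq] at this
    exact Fin.ext this.2.2.1
  right_inv x := by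
    have := (allB_iff _ _).1 h x x.2
    simp only [Bool.and_eq_true, Nat.beq_eq] at this
    exact Fin.ext this.2.2.2

theorem mk_symm {n N N' : ℕ} (h : permB n N N' = true) (h' : permB n N' N = true) :
    (mk n N N' h).symm = mk n N' N h' := rfl

theorem good_of {n N N' : ℕ} (h : permB n N N' = true) (hg : goodB n N = true) :
    Good {0} n (mk n N N' h) := by
  have key : ∀ a b c : Fin n, a.val < c.val → |(a : ℤ) + c - 2 * b| ≤ 1 →
      2 ≤ |(dig N a : ℤ) + dig N c - 2 * dig N b| := by
    intro a b c hac h1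
    have h2 := (allB_iff _ _).1 ((allB_iff _ _).1 hg c c.2) a hac
    rw [Bool.and_eq_true] at h2
    have h3 : b.val = (a.val + c.val) / 2 ∨ b.val = (a.val + c.val + 1) / 2 := by
      rw [abs_le] at h1
      omega
    have h4 : farB (dig N a + dig N c) (2 * dig N b) = true := by
      rcases h3 with h3 | h3
      · rw [h3]; exact h2.1
      · rw [h3]; exact h2.2
    unfold farB at h4
    rw [Bool.or_eq_true, Nat.ble_eq, Nat.ble_eq] at h4
    rw [le_abs]
    omega
  intro a b c hne κ hκ K hK h1
  rw [Set.mem_singleton_iff] at hκ hK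
  subst hκ hK
  have e1 : (a : ℤ) + c - 2 * b - 0 * n = (a : ℤ) + c - 2 * b := by ring
  rw [e1] at h1
  show 2 ≤ |((dig N a : ℕ) : ℤ) + (dig N c : ℕ) - 2 * (dig N b : ℕ) - 0 * n|
  have e2 : ((dig N a : ℕ) : ℤ) + (dig N c : ℕ) - 2 * (dig N b : ℕ) - 0 * n =
    (dig N a : ℤ) + dig N c - 2 * dig N b := by ring
  rw [e2]
  rcases lt_trichotomy a.val c.val with h2 | h2 | h2
  · exact key a b c h2 h1
  · exfalso
    rw [abs_le] at h1
    refine hne ⟨Fin.ext (by omega), Fin.ext (by omega)⟩
  · have h3 := key c b a h2 (by rwa [add_comm (c : ℤ)])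
    rwa [add_comm (dig N c : ℤ)] at h3

theorem win_of {n N N' : ℕ} (h : permB n N N' = true) (hw : winB n N = true) :
    Win 39 n (mk n N N' h) := by
  have h1 := (allB_iff _ _).1 hw
  constructor
  · intro x hx
    have h2 := h1 x (by omega)
    simp only [Bool.and_eq_true, Nat.ble_eq] at h2
    show 56 * (n : ℤ) ≤ 200 * (dig N x : ℕ) ∧ 200 * ((dig N x : ℕ) : ℤ) ≤ 88 * n
    omega
  · intro x hx
    have hx2 := x.2
    have h2 := h1 (n - 1 - x) (by omega)
    simp only [Bool.and_eq_true, Nat.ble_eq] at h2
    have e : n - 1 - (n - 1 - x.val) = x.val := by omega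
    rw [e] at h2
    show 105 * (n : ℤ) ≤ 200 * (dig N x : ℕ) ∧ 200 * ((dig N x : ℕ) : ℤ) ≤ 137 * n
    omega

/-- the permutation of `{0, ..., 11}` -/
def N12 : ℕ := 0x380c0c01058240400050141004

/-- its inverse -/
def I12 : ℕ := 0x380c0c01058240400050141004

theorem p12 : permB 12 N12 I12 = true := by decide +kernel

theorem p12' : permB 12 I12 N12 = true := by decide +kernel

theorem g12 : goodB 12 N12 = true := by decide +kernel

/-- the permutation of `{0, ..., 12}` -/
def N13 : ℕ := 0x701814020a060241600010181004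

/-- its inverse -/
def I13 : ℕ := 0x7028200c010600814000580c1204

theorem p13 : permB 13 N13 I13 = true := by decide +kernel

theorem p13' : permB 13 I13 N13 = true := by decide +kernel

theorem g13 : goodB 13 N13 = true := by decide +kernel

/-- the permutation of `{0, ..., 255}` -/
def N256 : ℕ := 0x56aa1249d52a81309f54a39468f462893c8849a41149143a2542ab46abd4ea45522d2c9a4a26d4cac572712a9918acdaad7140bda2d3199f07835238c07a58211c50478430a4ee73419fc8c97168ac7c81221e4542c200e8f632773e5deed7b38df0e86ebcdd4dc72ba5b2e420bf9f8d8703ddeaff763edbcf27d385d6f17eb69ccdf713c1e8db73afc68b81c8d96a435d30c6e2e5c8fc8a3b592ed6ec9600e19a1f0604416210686034140081c2a130708808170289c4826118001216670081e1e0c8401420030204a1b01874241c65b1ceab064315a8d05e349ac7d3d318e4845e9f8e876402d18285652d962be67b0998c42f124b66232148c0512c92cc6572a9c09a6b241a4ac6f36968dc66279a09c652f940a66a2a1b0c24c33974945c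

/-- its inverse -/
def I256 : ℕ := 0x4c2791e9d4b24d5ca94d2ad328953251208a56abd589748a9544a843a3546a05522d249b462554ea444239429c6a0f5aa41680f9a2401595ce229238bce843230e884283f0a86273430b06e3f3b1fcf6843a8b902326b1dc5a447336dfedc7438deefe72b75f6e47abc9d2fa7c3c5f8da6f381b0f95e385b2df77bf5d8ee7a3d9cef3713b5d4f075b0c60385fb1570335f0d878ce588ed6cc4608d08a35600e58c1a0a04426060c0202c0e0184018230e8900a210589c0400128483ec80e054360704888400a0783432040f0044c1765af4f2b74031d3eb33d2e592cd3c2c906723ea09988567ac1aeca691f176b45d2d584d32f1709a5d2d988d850381509448261a4a66a30160ca6832124dc522a98cd66f36944b24e3313cbe6125958ce5a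

theorem p256 : permB 256 N256 I256 = true := by decide +kernel

theorem p256' : permB 256 I256 N256 = true := by decide +kernel

theorem g256 : goodB 256 N256 = true := by decide +kernel

/-- the permutation of `{0, ..., 256}` -/
def N257 : ℕ := 0xa04c21d569e4d2514c9647a3560a74ba2d50884729546ae452311293562a55aaa4ca41449150a7548954926d3ed316ad8fa35211006472140fc88d62a90cf22b420f85275160ed0c77178a8e64718105047f228f0623d1c9e8f0fe73b79eef979b89c8f275bd9dee580201eadc71b7588e16d3edb6fc7a37df0e67d3a1e0ee7eba9dae06cbc5feec74b285c461b30980c9668d18e52198dd763862b0d6ed55ab180c0e1d0340a0001858281c048602012008802a24130203c270e88c4a021083c14130601c161f6408832170d844340442b2d9eb45c3615ed06baf598b95e1f8f8d13b1ed069c58b5164745f34982ce5fa0566ba25978b84931968a85f281989e5332144da6b2c99cd8692b9a0ca71379209c6a269b8e05b2618494622b160c05d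

/-- its inverse -/
def I257 : ℕ := 0xa344ac11e984d24d589556a99429755aa1149152a411a8853a390e9257a5148a94faa9388c4b2b93ca04ca6d16421fb30e8326c0b87040228b0fe3d23219004f3e9c8ee9d3b2085a81158bc7c3b3c8a078433ab58e644148c466f520bb1cae77eb91ccf17a3e5dcdd76b85bf006cbf1bc346d3edc6ff79be1b8fa7436dc0e27bbbdecea793add2f07f3048ec71aae454a25c0e9aa391b2c992b1600dd88305eb4020090782832150c03028120b078221b118100c01100980025040882e020980d96210e1f0341f0e834160713814480e5e2116ecd6534d74d26731968b6611bd66783d20da87e3db456abb5fa15aec3642f98acf2e17cb2602d138ae6228174b668259249a66261a8c2692a19094652b1c0dc5328954ce5e291c4da4835960c66c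

theorem p257 : permB 257 N257 I257 = true := by decide +kernel

theorem p257' : permB 257 I257 N257 = true := by decide +kernel

theorem g257 : goodB 257 N257 = true := by decide +kernel

theorem w256 : winB 256 N256 = true := by decide +kernel

theorem w256' : winB 256 I256 = true := by decide +kernel

theorem w257 : winB 257 N257 = true := by decide +kernel

theorem w257' : winB 257 I257 = true := by decide +kernel

theorem T256 : T 39 256 :=
  ⟨mk 256 N256 I256 p256, good_of p256 g256, win_of p256 w256, by
    rw [mk_symm p256 p256']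
    exact win_of p256' w256'⟩

theorem T257 : T 39 257 :=
  ⟨mk 257 N257 I257 p257, good_of p257 g257, win_of p257 w257, by
    rw [mk_symm p257 p257']
    exact win_of p257' w257'⟩

theorem cw12 : CW 12 (mk 12 N12 I12 p12) := by
  unfold CW
  decide +kernel

theorem cw12' : CW 12 (mk 12 I12 N12 p12') := by
  unfold CW
  decide +kernel

theorem cw13 : CW 13 (mk 13 N13 I13 p13) := by
  unfold CW
  decide +kernel

theorem cw13' : CW 13 (mk 13 I13 N13 p13') := by
  unfold CW
  decide +kernel

theorem intervals : ∀ m : ℤ, ∃ N : ℕ, ∀ n : ℕ, N ≤ n → T m n :=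
  T_large (mk 12 N12 I12 p12) (good_of p12 g12) cw12 (by rw [mk_symm p12 p12']; exact cw12')
    (mk 13 N13 I13 p13) (good_of p13 g13) cw13 (by rw [mk_symm p13 p13']; exact cw13') T256 T257

end Pool.Agent.E9helper80.GP
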