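import Pool.Agent.E9helper80.GP.Data
import Pool.Agent.E9helper80.GP.Cyc

/-!
# Good permutations of all large cyclic groups
-/

set_option autoImplicit false

namespace Pool.Agent.E9helper80.GP

/-- `ZMod (k + 1)` is `Fin (k + 1)` -/
def z2f {k : ℕ} : ZMod (k + 1) → Fin (k + 1) := fun x => x

/-- `ZMod (k + 1)` is `Fin (k + 1)` -/
def f2z {k : ℕ} : Fin (k + 1) → ZMod (k + 1) := fun x => x

/-- `ZMod (k + 1)` is `Fin (k + 1)` -/
def p2z {k : ℕ} : Equiv.Perm (Fin (k + 1)) → Equiv.Perm (ZMod (k + 1)) := fun x => x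

/-- `ZMod (k + 1)` is `Fin (k + 1)` -/
def p2f {k : ℕ} : Equiv.Perm (ZMod (k + 1)) → Equiv.Perm (Fin (k + 1)) := fun x => x

theorem cast_f {k : ℕ} (x : Fin (k + 1)) : (((x : ℕ) : ℤ) : ZMod (k + 1)) = f2z x := by
  have := ZMod.natCast_zmod_val (n := k + 1) (f2z x)
  rw [Int.cast_natCast]
  exact this

theorem f2z_z2f {k : ℕ} (x : ZMod (k + 1)) : f2z (z2f x) = x := rfl

theorem f2z_inj {k : ℕ} {x y : Fin (k + 1)} (h : f2z x = f2z y) : x = y := h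

theorem f2z_p2f {k : ℕ} (σ : Equiv.Perm (ZMod (k + 1))) (x : Fin (k + 1)) :
    f2z (p2f σ x) = σ (f2z x) := rfl

theorem p2z_apply {k : ℕ} (f : Equiv.Perm (Fin (k + 1))) (x : ZMod (k + 1)) :
    p2z f x = f2z (f (z2f x)) := rfl

theorem exists_coarse : ∃ M : ℕ, 3 ≤ M ∧ ∃ σ : Equiv.Perm (Fin M), Good Set.univ M σ := by
  obtain ⟨M, hM, σ, h⟩ := cyc
  obtain ⟨k, rfl⟩ : ∃ k, M = k + 1 := ⟨M - 1, by omega⟩
  refine ⟨k + 1, hM, p2f σ, ?_⟩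
  intro a b c hne κ _ K _ h1
  by_contra h2
  push Not at h2
  refine h _ _ h1 (Int.lt_add_one_iff.1 h2) (f2z a) (f2z b) (f2z c)
    (fun h3 => hne ⟨f2z_inj h3.1, f2z_inj h3.2⟩) ?_ ?_
  · rw [Int.cast_sub, Int.cast_sub, Int.cast_add, Int.cast_mul, Int.cast_mul, cast_f, cast_f,
      cast_f, Int.cast_natCast, ZMod.natCast_self]
    simp
  · rw [Int.cast_sub, Int.cast_sub, Int.cast_add, Int.cast_mul, Int.cast_mul, cast_f, cast_f,
      cast_f, Int.cast_natCast, ZMod.natCast_self, f2z_p2f, f2z_p2f, f2z_p2f]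
    simp

theorem all_large : ∃ N : ℕ, ∀ n : ℕ, N ≤ n → ∃ π : Equiv.Perm (ZMod n),
    ∀ a b c : ZMod n, ¬ (a = b ∧ b = c) → (a + c - 2 * b).valMinAbs.natAbs ≤ 1 →
      2 ≤ (π a + π c - 2 * π b).valMinAbs.natAbs := by
  obtain ⟨M, hM, σ, hσ⟩ := exists_coarse
  obtain ⟨N, hN⟩ := cyclic_large hM σ hσ intervals
  refine ⟨N + 1, fun n hn => ?_⟩
  obtain ⟨f, hf⟩ := hN n (by omega)
  obtain ⟨k, rfl⟩ : ∃ k, n = k + 1 := ⟨n - 1, by omega⟩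
  refine ⟨p2z f, ?_⟩
  intro a b c hne h1
  have key : ∀ x y z : Fin (k + 1), ∃ κ : ℤ,
      (((x : ℕ) : ℤ) + (z : ℕ) - 2 * (y : ℕ) - κ * (k + 1 : ℕ)) =
        (f2z x + f2z z - 2 * f2z y).valMinAbs := by
    intro x y z
    have e1 : ((((x : ℕ) : ℤ) + (z : ℕ) - 2 * (y : ℕ) - (f2z x + f2z z - 2 * f2z y).valMinAbs : ℤ) :
        ZMod (k + 1)) = 0 := by
      rw [Int.cast_sub, Int.cast_sub, Int.cast_add, Int.cast_mul, cast_f, cast_f, cast_f,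
        ZMod.coe_valMinAbs]
      simp
    rw [ZMod.intCast_zmod_eq_zero_iff_dvd] at e1
    obtain ⟨κ, hκ⟩ := e1
    exact ⟨κ, by linarith [mul_comm ((k + 1 : ℕ) : ℤ) κ]⟩
  obtain ⟨κ, hκ⟩ := key (z2f a) (z2f b) (z2f c)
  obtain ⟨K, hK⟩ := key (f (z2f a)) (f (z2f b)) (f (z2f c))
  rw [f2z_z2f, f2z_z2f, f2z_z2f] at hκ
  have h2 := hf (z2f a) (z2f b) (z2f c) hne κ trivial K trivial (by
    rw [hκ, Int.abs_eq_natAbs]
    exact_mod_cast h1)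
  rw [hK, Int.abs_eq_natAbs] at h2
  rw [p2z_apply, p2z_apply, p2z_apply]
  exact_mod_cast h2

end Pool.Agent.E9helper80.GP
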