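import Pool.Agent.E9helper80.GP.Core

/-!
# The induction for intervals

`T 39 n` for all large `n`, from two coarse permutations of `12` and `13` blocks and from `T 39 256`,
`T 39 257`.
-/

set_option autoImplicit false

namespace Pool.Agent.E9helper80.GP

open Finset

theorem Win.mono {m m' : ℤ} (h : m ≤ m') {n : ℕ} {f : Equiv.Perm (Fin n)} (hw : Win m' n f) :
    Win m n f :=
  ⟨fun x hx => hw.1 x (by omega), fun y hy => hw.2 y (by omega)⟩

theorem T.mono {m m' : ℤ} (h : m ≤ m') {n : ℕ} (hT : T m' n) : T m n := by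
  obtain ⟨f, h1, h2, h3⟩ := hT
  exact ⟨f, h1, h2.mono h, h3.mono h⟩

/-- where the two end blocks of a coarse permutation go -/
def CW (M : ℕ) (ρ : Equiv.Perm (Fin M)) : Prop :=
  (∀ i : Fin M, i.val = 0 →
    56 * M + 30 ≤ 200 * (ρ i).val ∧ 200 * ((ρ i).val + 1) + 30 ≤ 88 * M) ∧
  (∀ i : Fin M, i.val + 1 = M →
    105 * M + 30 ≤ 200 * (ρ i).val ∧ 200 * ((ρ i).val + 1) + 30 ≤ 137 * M)

theorem blow_win {M q : ℕ} (hM : M ≤ 13) (hq : 100 ≤ q) (ρ : Equiv.Perm (Fin M))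
    (hρ : CW M ρ) (hρ' : CW M ρ.symm) (d : Fin M → ℕ) (hd : ∀ i, q ≤ d i ∧ d i ≤ q + 1)
    (f : ∀ i, Equiv.Perm (Fin (d i))) :
    Win ((q : ℤ) - M) (∑ i, d i) (blow ρ d f) ∧ Win ((q : ℤ) - M) (∑ i, d i) (blow ρ d f).symm := by
  have hb : ∀ w, blow ρ d f (dom ρ d f w) = cod ρ d w := by
    intro w
    unfold blow
    simp
  have hb' : ∀ w, (blow ρ d f).symm (cod ρ d w) = dom ρ d f w := by
    intro w
    rw [← hb, Equiv.symm_apply_apply]
  have hn1 : M * q ≤ ∑ i, d i := by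
    calc M * q = ∑ _i : Fin M, q := by simp
      _ ≤ _ := Finset.sum_le_sum fun i _ => (hd i).1
  have hn2 : ∑ i, d i ≤ M * q + M := by
    calc _ ≤ ∑ _i : Fin M, (q + 1) := Finset.sum_le_sum fun i _ => (hd i).2
      _ = _ := by simp; ring
  have key : ∀ w : W ρ d,
      (q * (ρ.symm w.1).val ≤ (dom ρ d f w).val ∧
        (dom ρ d f w).val ≤ q * (ρ.symm w.1).val + (ρ.symm w.1).val + q) ∧
      (q * w.1.val ≤ (cod ρ d w).val ∧ (cod ρ d w).val ≤ q * w.1.val + w.1.val + q) := by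
    rintro ⟨j, y⟩
    rw [dom_val, cod_val]
    have p1 := le_pos d q (fun i => (hd i).1) (ρ.symm j)
    have p1' := pos_le d q (fun i => (hd i).2) (ρ.symm j)
    have P1 := le_pos (fun j => d (ρ.symm j)) q (fun i => (hd _).1) j
    have P1' := pos_le (fun j => d (ρ.symm j)) q (fun i => (hd _).2) j
    have k1 := ((f (ρ.symm j)).symm y).2
    have k1' := y.2
    have d1 := hd (ρ.symm j)
    refine ⟨⟨?_, ?_⟩, ⟨?_, ?_⟩⟩
    · exact le_trans p1 (Nat.le_add_right _ _)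
    · show _ ≤ q * (ρ.symm j).val + (ρ.symm j).val + q
      omega
    · exact le_trans P1 (Nat.le_add_right _ _)
    · show _ ≤ q * j.val + j.val + q
      omega
  obtain ⟨n, hn⟩ : ∃ n, n = ∑ i, d i := ⟨_, rfl⟩
  -- a position close to the left end is in block 0
  have L : ∀ (i : Fin M) (x : ℕ), q * i.val ≤ x → (x : ℤ) ≤ (q : ℤ) - M → i.val = 0 := by
    intro i x h1 h2
    by_contra hcon
    have h3 : q * 1 ≤ q * i.val := Nat.mul_le_mul_left _ (by omega)
    have := i.2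
    omega
  have Rt : ∀ (i : Fin M) (x : ℕ), x ≤ q * i.val + i.val + q →
      ((∑ i, d i : ℕ) : ℤ) - 1 - ((q : ℤ) - M) ≤ x → i.val + 1 = M := by
    intro i x h1 h2
    by_contra hcon
    have hi := i.2
    obtain ⟨e, he⟩ : ∃ e, M = i.val + 2 + e := ⟨M - (i.val + 2), by omega⟩
    have h4 : (i.val + 2 + e) * q = q * i.val + 2 * q + e * q := by ring
    rw [← he] at h4
    have h5 : 0 ≤ e * q := Nat.zero_le _
    omega
  -- positions of the images
  have wl : ∀ (j : ℕ), 56 * M + 30 ≤ 200 * j ∧ 200 * (j + 1) + 30 ≤ 88 * M → ∀ v : ℕ,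
      q * j ≤ v → v ≤ q * j + j + q →
      56 * ((∑ i, d i : ℕ) : ℤ) ≤ 200 * v ∧ 200 * (v : ℤ) ≤ 88 * ((∑ i, d i : ℕ) : ℤ) := by
    rintro j ⟨h1, h2⟩ v h3 h4
    have e1 : (56 * M + 30) * q ≤ (200 * j) * q := Nat.mul_le_mul_right _ h1
    have e2 : (200 * (j + 1) + 30) * q ≤ (88 * M) * q := Nat.mul_le_mul_right _ h2
    have e3 : (56 * M + 30) * q = 56 * (M * q) + 30 * q := by ring
    have e4 : (200 * j) * q = 200 * (q * j) := by ring
    have e5 : (200 * (j + 1) + 30) * q = 200 * (q * j) + 200 * q + 30 * q := by ring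
    have e6 : (88 * M) * q = 88 * (M * q) := by ring
    rw [e3, e4] at e1
    rw [e5, e6] at e2
    constructor
    · zify at *
      linarith
    · zify at *
      linarith
  have wr : ∀ (j : ℕ), 105 * M + 30 ≤ 200 * j ∧ 200 * (j + 1) + 30 ≤ 137 * M → ∀ v : ℕ,
      q * j ≤ v → v ≤ q * j + j + q →
      105 * ((∑ i, d i : ℕ) : ℤ) ≤ 200 * v ∧ 200 * (v : ℤ) ≤ 137 * ((∑ i, d i : ℕ) : ℤ) := by
    rintro j ⟨h1, h2⟩ v h3 h4
    have e1 : (105 * M + 30) * q ≤ (200 * j) * q := Nat.mul_le_mul_right _ h1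
    have e2 : (200 * (j + 1) + 30) * q ≤ (137 * M) * q := Nat.mul_le_mul_right _ h2
    have e3 : (105 * M + 30) * q = 105 * (M * q) + 30 * q := by ring
    have e4 : (200 * j) * q = 200 * (q * j) := by ring
    have e5 : (200 * (j + 1) + 30) * q = 200 * (q * j) + 200 * q + 30 * q := by ring
    have e6 : (137 * M) * q = 137 * (M * q) := by ring
    rw [e3, e4] at e1
    rw [e5, e6] at e2
    constructor
    · zify at *
      linarith
    · zify at *
      linarith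
  refine ⟨⟨?_, ?_⟩, ⟨?_, ?_⟩⟩
  · intro x hx
    obtain ⟨w, rfl⟩ := (dom ρ d f).surjective x
    rw [hb]
    obtain ⟨⟨k1, k2⟩, k3, k4⟩ := key w
    have h0 := L _ _ k1 hx
    have h1 := hρ.1 _ h0
    rw [Equiv.apply_symm_apply] at h1
    exact wl _ h1 _ k3 k4
  · intro x hx
    obtain ⟨w, rfl⟩ := (dom ρ d f).surjective x
    rw [hb]
    obtain ⟨⟨k1, k2⟩, k3, k4⟩ := key w
    have h0 := Rt _ _ k2 hx
    have h1 := hρ.2 _ h0
    rw [Equiv.apply_symm_apply] at h1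
    exact wr _ h1 _ k3 k4
  · intro x hx
    obtain ⟨w, rfl⟩ := (cod ρ d).surjective x
    rw [hb']
    obtain ⟨⟨k1, k2⟩, k3, k4⟩ := key w
    have h0 := L _ _ k3 hx
    exact wl _ (hρ'.1 _ h0) _ k1 k2
  · intro x hx
    obtain ⟨w, rfl⟩ := (cod ρ d).surjective x
    rw [hb']
    obtain ⟨⟨k1, k2⟩, k3, k4⟩ := key w
    have h0 := Rt _ _ k4 hx
    exact wr _ (hρ'.2 _ h0) _ k1 k2

/-- block sizes -/
def sz (M q r : ℕ) (i : Fin M) : ℕ := if i.val < r then q + 1 else q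

theorem sz_sum {M q r : ℕ} (hr : r ≤ M) : ∑ i, sz M q r i = M * q + r := by
  unfold sz
  rw [Fin.sum_univ_eq_sum_range (fun i => if i < r then q + 1 else q) M]
  have h1 : ∀ i ∈ range M, (if i < r then q + 1 else q) = q + if i < r then 1 else 0 := by
    intro i _
    split_ifs <;> rfl
  rw [Finset.sum_congr rfl h1, Finset.sum_add_distrib, Finset.sum_const, card_range,
    Finset.sum_ite, Finset.sum_const_zero, add_zero, Finset.sum_const]
  have h2 : (range M).filter (fun i => i < r) = range r := by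
    ext i
    simp only [mem_filter, mem_range]
    omega
  rw [h2, card_range]
  simp

theorem sz_bd (M q r : ℕ) (i : Fin M) : q ≤ sz M q r i ∧ sz M q r i ≤ q + 1 := by
  unfold sz
  split_ifs <;> omega

theorem T_sz {m : ℤ} {M q r : ℕ} (h1 : T m q) (h2 : 0 < r → T m (q + 1)) (i : Fin M) :
    T m (sz M q r i) := by
  unfold sz
  split_ifs with h
  · exact h2 (by omega)
  · exact h1

/-- the step for intervals -/
theorem T_step {M : ℕ} (hM3 : 3 ≤ M) (hM : M ≤ 13) (ρ : Equiv.Perm (Fin M)) (hρ : Good {0} M ρ)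
    (hρ1 : CW M ρ) (hρ2 : CW M ρ.symm) {m : ℤ} (hm : 3 * (M : ℤ) ≤ m) {n : ℕ}
    (hq : 100 * m + 137 < 17 * (n / M : ℕ)) (hq' : 100 ≤ n / M)
    (h1 : T m (n / M)) (h2 : 0 < n % M → T m (n / M + 1)) : T ((n / M : ℕ) - M) n := by
  have hr : n % M < M := Nat.mod_lt _ (by omega)
  have hs := sz_sum (M := M) (q := n / M) (r := n % M) hr.le
  rw [Nat.div_add_mod] at hs
  choose f hf1 hf2 hf3 using fun i : Fin M => T_sz h1 h2 i
  have hg := blow_good hM3 ρ hρ (sz M (n / M) (n % M)) (sz_bd _ _ _) f m hm hq hf1 hf2 hf3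
  have hw := blow_win hM (q := n / M) hq' ρ hρ1 hρ2 (sz M (n / M) (n % M)) (sz_bd _ _ _) f
  have hT : T ((n / M : ℕ) - M) (∑ i, sz M (n / M) (n % M) i) := ⟨_, hg, hw.1, hw.2⟩
  rw [hs] at hT
  exact hT

theorem exists_K : ∃ K : ℕ, 13 ^ (31 * K + 1) ≤ 12 ^ (32 * K) := by
  obtain ⟨K, hK⟩ := pow_unbounded_of_one_lt (13 : ℝ)
    (show (1 : ℝ) < 12 ^ 32 / 13 ^ 31 by norm_num)
  refine ⟨K, ?_⟩
  rw [div_pow, lt_div_iff₀ (by positivity)] at hK
  have h1 : (13 : ℝ) * (13 ^ 31) ^ K = ((13 ^ (31 * K + 1) : ℕ) : ℝ) := by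
    push_cast
    rw [pow_add, pow_mul, pow_one]
    ring
  have h2 : ((12 : ℝ) ^ 32) ^ K = ((12 ^ (32 * K) : ℕ) : ℝ) := by
    push_cast
    rw [pow_mul]
  rw [h1, h2] at hK
  exact_mod_cast hK.le

theorem dense : ∃ N : ℕ, ∀ n : ℕ, N ≤ n → ∃ a b : ℕ,
    256 * (12 ^ a * 13 ^ b) ≤ n ∧ n ≤ 257 * (12 ^ a * 13 ^ b) := by
  obtain ⟨K, hK⟩ := exists_K
  refine ⟨256 * 13 ^ (31 * K), fun n hn => ?_⟩
  have hpos : 0 < 13 ^ (31 * K) := by positivity
  have h0 : 13 ^ (31 * K) ≤ n / 256 := by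
    rw [Nat.le_div_iff_mul_le (by norm_num)]
    omega
  obtain ⟨w, hw⟩ : ∃ w, w = Nat.log 13 (n / 256) := ⟨_, rfl⟩
  have hw1 : 13 ^ w ≤ n / 256 := by
    rw [hw]
    exact Nat.pow_log_le_self 13 (by omega)
  have hw2 : n / 256 < 13 ^ (w + 1) := by
    rw [hw]
    exact Nat.lt_pow_succ_log_self (by norm_num) _
  have hwK : 31 * K ≤ w := by
    rw [hw]
    exact (Nat.le_log_iff_pow_le (by norm_num) (by omega)).2 h0
  have hw1' : 256 * 13 ^ w ≤ n := by
    rw [Nat.le_div_iff_mul_le (by norm_num)] at hw1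
    omega
  have hw2' : n < 256 * 13 ^ (w + 1) := by
    rw [Nat.div_lt_iff_lt_mul (by norm_num)] at hw2
    omega
  have hex : ∃ k, n < 256 * (12 ^ (32 * k) * 13 ^ (w - 31 * k)) := by
    refine ⟨K, lt_of_lt_of_le hw2' ?_⟩
    refine Nat.mul_le_mul_left _ ?_
    calc 13 ^ (w + 1) = 13 ^ (31 * K + 1) * 13 ^ (w - 31 * K) := by
          rw [← pow_add]; congr 1; omega
      _ ≤ _ := Nat.mul_le_mul_right _ hK
  classical
  obtain ⟨k, hk, hmin⟩ : ∃ k, n < 256 * (12 ^ (32 * k) * 13 ^ (w - 31 * k)) ∧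
      ∀ k' < k, ¬ n < 256 * (12 ^ (32 * k') * 13 ^ (w - 31 * k')) :=
    ⟨Nat.find hex, Nat.find_spec hex, fun k' hk' => Nat.find_min hex hk'⟩
  have hkK : k ≤ K := by
    by_contra hcon
    refine hmin K (by omega) (lt_of_lt_of_le hw2' ?_)
    refine Nat.mul_le_mul_left _ ?_
    calc 13 ^ (w + 1) = 13 ^ (31 * K + 1) * 13 ^ (w - 31 * K) := by
          rw [← pow_add]; congr 1; omega
      _ ≤ _ := Nat.mul_le_mul_right _ hK
  rcases Nat.eq_zero_or_pos k with rfl | hkp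
  · exfalso
    simp at hk
    omega
  obtain ⟨l, rfl⟩ : ∃ l, k = l + 1 := ⟨k - 1, by omega⟩
  have hl := hmin l (by omega)
  push Not at hl
  refine ⟨32 * l, w - 31 * l, hl, hk.le.trans ?_⟩
  have e1 : w - 31 * l = (w - 31 * (l + 1)) + 31 := by omega
  rw [e1]
  have h1 : 256 * 12 ^ 32 ≤ 257 * 13 ^ 31 := by norm_num
  calc 256 * (12 ^ (32 * (l + 1)) * 13 ^ (w - 31 * (l + 1)))
      = (256 * 12 ^ 32) * (12 ^ (32 * l) * 13 ^ (w - 31 * (l + 1))) := by ring
    _ ≤ (257 * 13 ^ 31) * (12 ^ (32 * l) * 13 ^ (w - 31 * (l + 1))) := Nat.mul_le_mul_right _ h1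
    _ = _ := by ring

/-- one multiplication by `M` -/
theorem C_step {M : ℕ} (hM3 : 3 ≤ M) (hM : M ≤ 13) (ρ : Equiv.Perm (Fin M)) (hρ : Good {0} M ρ)
    (hρ1 : CW M ρ) (hρ2 : CW M ρ.symm) {P : ℕ} (hP : 1 ≤ P)
    (h : ∀ n, 256 * P ≤ n → n ≤ 257 * P → T 39 n) :
    ∀ n, 256 * (M * P) ≤ n → n ≤ 257 * (M * P) → T 39 n := by
  intro n h1 h2
  have hMp : 0 < M := by omega
  have q1 : 256 * P ≤ n / M := by
    rw [Nat.le_div_iff_mul_le hMp]
    linarith [show 256 * P * M = 256 * (M * P) by ring]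
  have q2 : n / M ≤ 257 * P := by
    refine Nat.div_le_of_le_mul ?_
    linarith [show M * (257 * P) = 257 * (M * P) by ring]
  have q3 : 0 < n % M → n / M + 1 ≤ 257 * P := by
    intro h3
    by_contra hcon
    have h4 : n / M = 257 * P := by omega
    have h5 := Nat.div_add_mod n M
    rw [h4] at h5
    have h6 : M * (257 * P) = 257 * (M * P) := by ring
    omega
  have := T_step hM3 hM ρ hρ hρ1 hρ2 (m := 39) (by omega) (n := n) (by omega)
    (by omega) (h _ q1 q2) (fun h3 => h _ (by omega) (q3 h3))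
  exact this.mono (by omega)

/-- all large intervals -/
theorem T_large (ρ₁ : Equiv.Perm (Fin 12)) (h1 : Good {0} 12 ρ₁) (h1' : CW 12 ρ₁)
    (h1'' : CW 12 ρ₁.symm) (ρ₂ : Equiv.Perm (Fin 13)) (h2 : Good {0} 13 ρ₂) (h2' : CW 13 ρ₂)
    (h2'' : CW 13 ρ₂.symm) (b1 : T 39 256) (b2 : T 39 257) :
    ∀ m : ℤ, ∃ N : ℕ, ∀ n : ℕ, N ≤ n → T m n := by
  have C : ∀ a b : ℕ, ∀ n, 256 * (12 ^ a * 13 ^ b) ≤ n → n ≤ 257 * (12 ^ a * 13 ^ b) → T 39 n := by
    intro a
    induction a with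
    | zero =>
      intro b
      induction b with
      | zero =>
        intro n h1 h2
        simp at h1 h2
        have : n = 256 ∨ n = 257 := by omega
        rcases this with rfl | rfl
        · exact b1
        · exact b2
      | succ b ih =>
        intro n h3 h4
        refine C_step (by norm_num) (by norm_num) ρ₂ h2 h2' h2'' (P := 12 ^ 0 * 13 ^ b)
          (Nat.one_le_iff_ne_zero.2 (by positivity)) ih n ?_ ?_
        · calc _ = 256 * (12 ^ 0 * 13 ^ (b + 1)) := by ring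
            _ ≤ n := h3
        · calc n ≤ 257 * (12 ^ 0 * 13 ^ (b + 1)) := h4
            _ = _ := by ring
    | succ a ih =>
      intro b n h3 h4
      refine C_step (by norm_num) (by norm_num) ρ₁ h1 h1' h1'' (P := 12 ^ a * 13 ^ b)
          (Nat.one_le_iff_ne_zero.2 (by positivity)) (ih b) n ?_ ?_
      · calc _ = 256 * (12 ^ (a + 1) * 13 ^ b) := by ring
          _ ≤ n := h3
      · calc n ≤ 257 * (12 ^ (a + 1) * 13 ^ b) := h4
          _ = _ := by ring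
  obtain ⟨N, hN⟩ := dense
  have A : ∀ n, N ≤ n → T 39 n := by
    intro n hn
    obtain ⟨a, b, h3, h4⟩ := hN n hn
    exact C a b n h3 h4
  intro m
  refine ⟨12 * (N + m.toNat + 300), fun n hn => ?_⟩
  have hq : N + m.toNat + 300 ≤ n / 12 := by omega
  have := T_step (by norm_num) (by norm_num) ρ₁ h1 h1' h1'' (m := 39) (by norm_num) (n := n)
    (by omega) (by omega) (A _ (by omega)) (fun _ => A _ (by omega))
  exact this.mono (by omega)

/-- cyclic groups -/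
theorem cyclic_large {M : ℕ} (hM : 3 ≤ M) (σ : Equiv.Perm (Fin M)) (hσ : Good Set.univ M σ)
    (h : ∀ m : ℤ, ∃ N : ℕ, ∀ n : ℕ, N ≤ n → T m n) :
    ∃ N : ℕ, ∀ n : ℕ, N ≤ n → ∃ f : Equiv.Perm (Fin n), Good Set.univ n f := by
  obtain ⟨N, hN⟩ := h (3 * M)
  refine ⟨M * (N + 300 * M + 137), fun n hn => ?_⟩
  have hMp : 0 < M := by omega
  have hq : N + 300 * M + 137 ≤ n / M := by
    rw [Nat.le_div_iff_mul_le hMp]
    linarith [show (N + 300 * M + 137) * M = M * (N + 300 * M + 137) by ring]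
  have hr : n % M < M := Nat.mod_lt _ (by omega)
  have hs := sz_sum (M := M) (q := n / M) (r := n % M) hr.le
  rw [Nat.div_add_mod] at hs
  choose f hf1 hf2 hf3 using fun i : Fin M =>
    T_sz (r := n % M) (hN (n / M) (by omega)) (fun _ => hN (n / M + 1) (by omega)) i
  have hg := blow_good hM σ hσ (sz M (n / M) (n % M)) (sz_bd _ _ _) f (3 * M) le_rfl (by omega)
    hf1 hf2 hf3
  have hT : ∃ f : Equiv.Perm (Fin (∑ i, sz M (n / M) (n % M) i)),
    Good Set.univ (∑ i, sz M (n / M) (n % M) i) f := ⟨_, hg⟩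
  rw [hs] at hT
  exact hT

end Pool.Agent.E9helper80.GP
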